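import Mathlib

/-!
# Field identities for the open set `U₀`
-/

namespace Helper50.D71

section

variable {L : Type*} [Field L] {s y v fb F z1 z0 P0 : L}

/-- the data of the field elements -/
structure Dat (s y v fb F z1 z0 P0 : L) : Prop where
  hfb : fb = y ^ 3 - 1
  hF : F = fb - s ^ 2
  hz1 : z1 = -(s ^ 2 * v + F)
  hz0 : z0 = -(s * z1) - y * v
  hP0 : P0 = v + y ^ 2 * z0
  s0 : s ≠ 0
  v0 : v ≠ 0
  fb0 : fb ≠ 0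
  F0 : F ≠ 0
  z10 : z1 ≠ 0
  P00 : P0 ≠ 0

lemma Dat.P0_eq (h : Dat s y v fb F z1 z0 P0) : P0 = -(fb * v) - y ^ 2 * s * z1 := by
  rw [h.hP0, h.hz0, h.hfb]; ring

/-- coordinates of the chart `B` -/
structure DatB (s y v fb F z1 z0 P0 b1 b2 b3 e : L) : Prop extends Dat s y v fb F z1 z0 P0 where
  hb1 : b1 = y * s * z1 / P0
  hb2 : b2 = s * z1 / P0
  hb3 : b3 = P0 ^ 2 / (s * fb * z1 ^ 2)
  he : e = fb / F

variable {b1 b2 b3 e : L}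

lemma DatB.b20 (h : DatB s y v fb F z1 z0 P0 b1 b2 b3 e) : b2 ≠ 0 := by
  rw [h.hb2]
  exact div_ne_zero (mul_ne_zero h.s0 h.z10) h.P00

lemma DatB.b30 (h : DatB s y v fb F z1 z0 P0 b1 b2 b3 e) : b3 ≠ 0 := by
  rw [h.hb3]
  exact div_ne_zero (pow_ne_zero _ h.P00) (mul_ne_zero (mul_ne_zero h.s0 h.fb0)
    (pow_ne_zero _ h.z10))

lemma DatB.y_eq (h : DatB s y v fb F z1 z0 P0 b1 b2 b3 e) : y * b2 = b1 := by
  rw [h.hb1, h.hb2]; ring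

lemma DatB.q_eq (h : DatB s y v fb F z1 z0 P0 b1 b2 b3 e) : b2 ^ 2 * b3 = s / fb := by
  have := h.s0; have := h.fb0; have := h.z10; have := h.P00
  rw [h.hb2, h.hb3]; field_simp

lemma DatB.p_eq (h : DatB s y v fb F z1 z0 P0 b1 b2 b3 e) : b2 * b3 = P0 / (fb * z1) := by
  have := h.s0; have := h.fb0; have := h.z10; have := h.P00
  rw [h.hb2, h.hb3]; field_simp

lemma DatB.fb_eq (h : DatB s y v fb F z1 z0 P0 b1 b2 b3 e) : b1 ^ 3 - b2 ^ 3 = fb * b2 ^ 3 := by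
  rw [← h.y_eq, h.hfb]; ring

lemma DatB.s_eq (h : DatB s y v fb F z1 z0 P0 b1 b2 b3 e) :
    b3 * (b1 ^ 3 - b2 ^ 3) = s * b2 := by
  rw [h.fb_eq]
  have h1 := h.q_eq
  have h2 := h.fb0
  have : b3 * (fb * b2 ^ 3) = (b2 ^ 2 * b3) * fb * b2 := by ring
  rw [this, h1]; field_simp

lemma DatB.v_eq (h : DatB s y v fb F z1 z0 P0 b1 b2 b3 e) :
    v / z1 = -(b3 * (b2 + b1 ^ 2)) := by
  have h1 := h.q_eq
  have h2 := h.p_eq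
  have h3 := h.fb0
  have h4 := h.z10
  have : b3 * (b2 + b1 ^ 2) = (b2 * b3) + y ^ 2 * (b2 ^ 2 * b3) := by rw [← h.y_eq]; ring
  rw [this, h1, h2, h.P0_eq]; field_simp; ring

lemma DatB.z0_eq (h : DatB s y v fb F z1 z0 P0 b1 b2 b3 e) :
    z0 / z1 = b3 * (b1 + b2 ^ 2) := by
  have h1 := h.q_eq
  have h2 := h.p_eq
  have h3 := h.fb0
  have h4 := h.z10
  have h5 : b3 * (b1 + b2 ^ 2) = y * (b2 * b3) + (b2 ^ 2 * b3) := by rw [← h.y_eq]; ring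
  have h6 : z0 / z1 = -s - y * (v / z1) := by rw [h.hz0]; field_simp
  have h7 : b3 * (b2 + b1 ^ 2) = (b2 * b3) + y ^ 2 * (b2 ^ 2 * b3) := by rw [← h.y_eq]; ring
  rw [h6, h5, h.v_eq, h7, h1, h2]
  have h8 : y ^ 3 = fb + 1 := by rw [h.hfb]; ring
  field_simp
  linear_combination (s * z1) * h8

lemma DatB.E_eq (h : DatB s y v fb F z1 z0 P0 b1 b2 b3 e) :
    F / fb = 1 - b2 * b3 ^ 2 * (b1 ^ 3 - b2 ^ 3) := by
  have h1 := h.q_eq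
  have h3 := h.fb0
  have : b2 * b3 ^ 2 * (b1 ^ 3 - b2 ^ 3) = (b2 ^ 2 * b3) ^ 2 * fb := by rw [h.fb_eq]; ring
  rw [this, h1, h.hF]; field_simp

lemma DatB.eE (h : DatB s y v fb F z1 z0 P0 b1 b2 b3 e) :
    e * (1 - b2 * b3 ^ 2 * (b1 ^ 3 - b2 ^ 3)) = 1 := by
  have h3 := h.fb0
  have h4 := h.F0
  rw [← h.E_eq, h.he]; field_simp

lemma DatB.sz_eq (h : DatB s y v fb F z1 z0 P0 b1 b2 b3 e) :
    s / z1 = -(b2 ^ 2 * b3 - b3 ^ 4 * (b1 ^ 3 - b2 ^ 3) ^ 2 * (b2 + b1 ^ 2)) * e := by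
  have h1 := h.q_eq
  have h2 := h.v_eq
  have h3 := h.fb0
  have h4 := h.F0
  have h5 := h.z10
  have : b3 ^ 4 * (b1 ^ 3 - b2 ^ 3) ^ 2 * (b2 + b1 ^ 2) =
      -((b3 * (b1 ^ 3 - b2 ^ 3)) ^ 2 * b3) * (-(b3 * (b2 + b1 ^ 2))) := by ring
  rw [this, h.s_eq, ← h2]
  have : (s * b2) ^ 2 * b3 = s ^ 2 * (b2 ^ 2 * b3) := by ring
  rw [this, h1, h.he]
  have h6 : F = -(s ^ 2 * v) - z1 := by rw [h.hz1]; ring
  field_simp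
  rw [h6]
  ring

/-- `κ_ω / z₁³` -/
lemma DatB.kap_eq (h : DatB s y v fb F z1 z0 P0 b1 b2 b3 e) (ω : L) :
    (z1 ^ 3 + (z0 + ω * v) * z1 * s + (z0 + ω * v) ^ 2 * v) / z1 ^ 3 =
      1 + (z0 / z1 + ω * (v / z1)) * (s / z1) + (z0 / z1 + ω * (v / z1)) ^ 2 * (v / z1) := by
  have h5 := h.z10
  field_simp

lemma DatB.kap_eq' (h : DatB s y v fb F z1 z0 P0 b1 b2 b3 e) (ω : L) :
    (z1 ^ 3 + (z0 + ω * v) * z1 * s + (z0 + ω * v) ^ 2 * v) / z1 ^ 3 =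
      1 + (b3 * (b1 + b2 ^ 2) + ω * (-(b3 * (b2 + b1 ^ 2)))) *
        (-(b2 ^ 2 * b3 - b3 ^ 4 * (b1 ^ 3 - b2 ^ 3) ^ 2 * (b2 + b1 ^ 2)) * e)
       + (b3 * (b1 + b2 ^ 2) + ω * (-(b3 * (b2 + b1 ^ 2)))) ^ 2 * (-(b3 * (b2 + b1 ^ 2))) := by
  rw [h.kap_eq, h.z0_eq, h.v_eq, h.sz_eq]

/-- the cofactor `m` -/
lemma DatB.Yr_eq (h : DatB s y v fb F z1 z0 P0 b1 b2 b3 e) :
    (v ^ 4 - s * z1 ^ 3) / z1 ^ 4 = b2 * b3 * e *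
      ((b2 + b1 ^ 2) * b3 ^ 3 * (b2 ^ 2 + 3 * b2 * b1 ^ 2 + 3 * b1 ^ 4 + 2 * b1 ^ 3 * b2 ^ 2 -
        b2 ^ 5) + b2 - b3 ^ 5 * (b2 + b1 ^ 2) ^ 4 * (b1 ^ 3 - b2 ^ 3)) := by
  have h5 := h.z10
  have h1 : (v ^ 4 - s * z1 ^ 3) / z1 ^ 4 = (v / z1) ^ 4 - s / z1 := by field_simp
  rw [h1, h.sz_eq, h.v_eq]
  have h2 := h.eE
  linear_combination (-(b3 * (b2 + b1 ^ 2)) ^ 4) * h2

lemma DatB.last_eq (h : DatB s y v fb F z1 z0 P0 b1 b2 b3 e) :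
    fb ^ 3 * v / (s * P0) * (b2 ^ 6 * b3) = -((b1 ^ 3 - b2 ^ 3) * (b2 + b1 ^ 2)) := by
  have h1 := h.s0; have h2 := h.fb0; have h3 := h.z10; have h4 := h.P00
  have h5 := h.b20
  have h6 := h.b30
  have e1 : v = -(z1 * (b3 * (b2 + b1 ^ 2))) := by
    have := h.v_eq
    rw [div_eq_iff h3] at this
    rw [this]; ring
  have e2 : P0 = b2 * b3 * (fb * z1) := by
    have := h.p_eq
    rw [this]; field_simp
  have e3 : s = b2 ^ 2 * b3 * fb := by rw [h.q_eq]; field_simp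
  rw [e2, e3, e1, h.fb_eq]
  field_simp

/-- `κ_ω = (y - ω) λ_ω` -/
lemma Dat.kap_lam (h : Dat s y v fb F z1 z0 P0) (ω : L) (hω : ω ^ 3 = 1) :
    z1 ^ 3 + (z0 + ω * v) * z1 * s + (z0 + ω * v) ^ 2 * v = (y - ω) *
      (-(y ^ 2 + ω * y + ω ^ 2) * z1 ^ 2 + v * (-(s * z1) + 2 * s * z1 * v + (y - ω) * v ^ 2)) := by
  have h1 : z1 = -(s ^ 2 * v + y ^ 3 - 1 - s ^ 2) := by rw [h.hz1, h.hF, h.hfb]; ring
  rw [h.hz0]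
  have h2 : z1 * z1 ^ 2 = -(s ^ 2 * v + y ^ 3 - 1 - s ^ 2) * z1 ^ 2 := by rw [← h1]
  linear_combination h2 - z1 ^ 2 * hω

/-- `λ_ω / v³` -/
lemma Dat.lam_eq (h : Dat s y v fb F z1 z0 P0) (ω : L) :
    (-(y ^ 2 + ω * y + ω ^ 2) * z1 ^ 2 + v * (-(s * z1) + 2 * s * z1 * v + (y - ω) * v ^ 2)) / v ^ 3
     = -(y ^ 2 + ω * y + ω ^ 2) * (z1 / v) ^ 2 * (1 / v) - s * (z1 / v) * (1 / v) +
      2 * s * (z1 / v) + (y - ω) := by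
  have := h.v0
  field_simp
  ring

lemma fb_fac (h : Dat s y v fb F z1 z0 P0) {w : L} (hw : w ^ 2 + w + 1 = 0) :
    (y - 1) * (y - w) * (y - w ^ 2) = fb := by
  rw [h.hfb]
  have h3 : w ^ 3 = 1 := by linear_combination (w - 1) * hw
  linear_combination (-y ^ 2 + y) * hw + (y - 1) * h3

end

end Helper50.D71
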