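import Pool.Agent.Helper64.D71.SmoothAlg
import Pool.Agent.Helper64.D71.UAlg

/-!
# Block R-smooth: the ten charts are smooth
-/

open MvPolynomial

universe u

namespace Helper50.D71

section

variable (k : Type u) [Field k]

lemma top_of (L : IntermediateField k (KK k)) (hs : s k ∈ L) (hy : y k ∈ L) (hv : v k ∈ L) :
    L = ⊤ := by
  have hpol : ∀ p : MvPolynomial (Fin 3) k, algebraMap (MvPolynomial (Fin 3) k) (KK k) p ∈ L := by
    intro p
    induction p using MvPolynomial.induction_on with
    | C a =>
      have : algebraMap (MvPolynomial (Fin 3) k) (KK k) (C a) = algebraMap k (KK k) a :=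
        (IsScalarTower.algebraMap_apply k (MvPolynomial (Fin 3) k) (KK k) a).symm
      rw [this]
      exact L.algebraMap_mem a
    | add p q hp hq => rw [map_add]; exact add_mem hp hq
    | mul_X p i hp =>
      rw [map_mul]
      refine mul_mem hp ?_
      fin_cases i
      · exact hs
      · exact hy
      · exact hv
  rw [eq_top_iff]
  intro x _
  obtain ⟨p, q, _, rfl⟩ := IsFractionRing.div_surjective (A := MvPolynomial (Fin 3) k) x
  exact div_mem (hpol p) (hpol q)

variable {k} in
lemma adjoin_four {K : Type u} [Field K] [Algebra k K] (a b c d : K) :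
    Algebra.adjoin k {a, b, c, d} =
      Algebra.adjoin k (Set.range ![a, b, c]) ⊔ Algebra.adjoin k {d} := by
  rw [← Algebra.adjoin_union]
  congr 1
  ext x
  simp only [Set.mem_insert_iff, Set.mem_singleton_iff, Set.mem_union, Set.mem_range,
    Fin.exists_fin_succ, Matrix.cons_val_zero, Matrix.cons_val_succ]
  simp
  tauto

/-- `y, p, q` generate the field -/
lemma top_of_ypq (L : IntermediateField k (KK k)) (hy : y k ∈ L)
    (hp : P0 k / (fb k * z1 k) ∈ L) (hq : s k / fb k ∈ L) : L = ⊤ := by
  have nf := fb_ne k; have nz := z1_ne k; have nF := F_ne k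
  have hfb : fb k ∈ L := by unfold fb; exact sub_mem (pow_mem hy 3) (one_mem _)
  have hs : s k ∈ L := by
    have : s k = s k / fb k * fb k := by field_simp
    rw [this]; exact mul_mem hq hfb
  have hF : F k ∈ L := by unfold F; exact sub_mem hfb (pow_mem hs 2)
  have hb : v k / z1 k ∈ L := by
    have h0 : P0 k = -(fb k * v k) - y k ^ 2 * s k * z1 k := by
      unfold P0 z0 fb; ring
    have : v k / z1 k = -(P0 k / (fb k * z1 k)) - y k ^ 2 * (s k / fb k) := by
      rw [h0]; field_simp; ring
    rw [this]
    exact sub_mem (neg_mem hp) (mul_mem (pow_mem hy 2) hq)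
  have hz : z1 k ∈ L := by
    have h1 : z1 k * (1 + s k ^ 2 * (v k / z1 k)) = -F k := by
      field_simp
      unfold z1; ring
    have h2 : 1 + s k ^ 2 * (v k / z1 k) ≠ 0 := by
      intro h0; rw [h0, mul_zero] at h1
      exact nF (neg_eq_zero.mp h1.symm)
    have : z1 k = -F k / (1 + s k ^ 2 * (v k / z1 k)) := by
      rw [eq_div_iff h2, h1]
    rw [this]
    exact div_mem (neg_mem hF) (add_mem (one_mem _) (mul_mem (pow_mem hs 2) hb))
  have hv : v k ∈ L := by
    have : v k = v k / z1 k * z1 k := by field_simp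
    rw [this]; exact mul_mem hb hz
  exact top_of k L hs hy hv

/-- `s, y, z₀` generate the field -/
lemma top_of_syz (L : IntermediateField k (KK k)) (hs : s k ∈ L) (hy : y k ∈ L)
    (hz : z0 k ∈ L) : L = ⊤ := by
  have nd := dd_ne k
  have hF : F k ∈ L := by
    unfold F fb; exact sub_mem (sub_mem (pow_mem hy 3) (one_mem _)) (pow_mem hs 2)
  have hd : dd k ∈ L := by unfold dd; exact sub_mem (pow_mem hs 3) hy
  have hv : v k ∈ L := by
    have : v k = (z0 k - s k * F k) / dd k := by
      field_simp
      unfold z0 z1 dd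
      ring
    rw [this]
    exact div_mem (sub_mem hz (mul_mem hs hF)) hd
  exact top_of k L hs hy hv

theorem chart_smooth [CharZero k] (c : Ch) : Algebra.Smooth k (chart k c) := by
  have ns := s_ne k; have ny := y_ne k; have nv := v_ne k; have nf := fb_ne k
  have nF := F_ne k; have nz1 := z1_ne k; have nz0 := z0_ne k; have nP := P0_ne k
  have nd := dd_ne k
  have h3 : (3 : k) ≠ 0 := by norm_num
  have hmem : ∀ (t : Fin 3 → KK k) (i : Fin 3), t i ∈ IntermediateField.adjoin k (Set.range t) :=
    fun t i => IntermediateField.subset_adjoin _ _ ⟨i, rfl⟩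
  cases c with
  | S =>
    have ht : AlgebraicIndependent k ![y k, s k, v k / s k] := by
      apply algInd_of_top
      have h0 : y k ∈ _ := hmem ![y k, s k, v k / s k] 0
      have h1 : s k ∈ _ := hmem ![y k, s k, v k / s k] 1
      have h2 : v k / s k ∈ _ := hmem ![y k, s k, v k / s k] 2
      generalize IntermediateField.adjoin k (Set.range ![y k, s k, v k / s k]) = L at h0 h1 h2
      refine top_of k _ h1 h0 ?_
      have : v k = v k / s k * s k := by field_simp
      rw [this]; exact mul_mem h2 h1
    refine smooth_rel h3 ![y k, s k, fb k / s k, v k / s k] ?_ ?_ _ ?_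
    · change s k * (fb k / s k) = y k ^ 3 - 1
      field_simp; rfl
    · have : (fun i => (![y k, s k, fb k / s k, v k / s k] : Fin 4 → KK k)
        ((![0, 1, 3] : Fin 3 → Fin 4) i)) = ![y k, s k, v k / s k] := by
        ext i; fin_cases i <;> rfl
      rw [this]; exact ht
    · unfold chart gens
      simp only
      congr 1
      ext x
      simp
      tauto
  | V =>
    have ht : AlgebraicIndependent k ![y k, v k, s k / v k] := by
      apply algInd_of_top
      have h0 : y k ∈ _ := hmem ![y k, v k, s k / v k] 0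
      have h1 : v k ∈ _ := hmem ![y k, v k, s k / v k] 1
      have h2 : s k / v k ∈ _ := hmem ![y k, v k, s k / v k] 2
      generalize IntermediateField.adjoin k (Set.range ![y k, v k, s k / v k]) = L at h0 h1 h2
      refine top_of k _ ?_ h0 h1
      have : s k = s k / v k * v k := by field_simp
      rw [this]; exact mul_mem h2 h1
    refine smooth_rel h3 ![y k, v k, fb k / v k, s k / v k] ?_ ?_ _ ?_
    · change v k * (fb k / v k) = y k ^ 3 - 1
      field_simp; rfl
    · have : (fun i => (![y k, v k, fb k / v k, s k / v k] : Fin 4 → KK k)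
        ((![0, 1, 3] : Fin 3 → Fin 4) i)) = ![y k, v k, s k / v k] := by
        ext i; fin_cases i <;> rfl
      rw [this]; exact ht
    · unfold chart gens
      simp only
      congr 1
      ext x
      simp
      tauto
  | W =>
    have ht : AlgebraicIndependent k ![s k, y k, 1 / v k] := by
      apply algInd_of_top
      have h0 : s k ∈ _ := hmem ![s k, y k, 1 / v k] 0
      have h1 : y k ∈ _ := hmem ![s k, y k, 1 / v k] 1
      have h2 : 1 / v k ∈ _ := hmem ![s k, y k, 1 / v k] 2
      generalize IntermediateField.adjoin k (Set.range ![s k, y k, 1 / v k]) = L at h0 h1 h2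
      refine top_of k _ h0 h1 ?_
      have : v k = (1 / v k)⁻¹ := by field_simp
      rw [this]; exact inv_mem h2
    refine smooth_loc ht 1 one_ne_zero _ ?_
    unfold chart gens
    simp only [map_one, inv_one]
    have : Algebra.adjoin k {(1 : KK k)} ≤
        Algebra.adjoin k (Set.range ![s k, y k, 1 / v k]) := by
      rw [Algebra.adjoin_le_iff]
      rintro x rfl
      exact one_mem _
    rw [sup_eq_left.mpr this]
    congr 1
    ext x
    simp
    tauto
  | Pa =>
    have ht : AlgebraicIndependent k ![1 / s k, y k / s k, z0 k / s k] := by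
      apply algInd_of_top
      have h0 : 1 / s k ∈ _ := hmem ![1 / s k, y k / s k, z0 k / s k] 0
      have h1 : y k / s k ∈ _ := hmem ![1 / s k, y k / s k, z0 k / s k] 1
      have h2 : z0 k / s k ∈ _ := hmem ![1 / s k, y k / s k, z0 k / s k] 2
      generalize IntermediateField.adjoin k (Set.range ![1 / s k, y k / s k, z0 k / s k]) = L at h0 h1 h2
      have hs : s k ∈ L := by
        have : s k = (1 / s k)⁻¹ := by field_simp
        rw [this]; exact inv_mem h0
      refine top_of_syz k _ hs ?_ ?_
      · have : y k = y k / s k * s k := by field_simp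
        rw [this]; exact mul_mem h1 hs
      · have : z0 k = z0 k / s k * s k := by field_simp
        rw [this]; exact mul_mem h2 hs
    refine smooth_loc ht (1 - X 0 ^ 2 * X 1) ?_ _ ?_
    · intro h; have := congrArg (eval (fun _ => 0)) h; simp at this
    · unfold chart gens
      simp only
      rw [adjoin_four]
      congr 2
      rw [Set.singleton_eq_singleton_iff]
      simp only [map_sub, map_mul, map_pow, map_one, aeval_X]
      change s k ^ 3 / dd k = (1 - (1 / s k) ^ 2 * (y k / s k))⁻¹
      have : 1 - (1 / s k) ^ 2 * (y k / s k) = dd k / s k ^ 3 := by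
        unfold dd; field_simp
      rw [this, inv_div]
  | Pb =>
    have ht : AlgebraicIndependent k ![1 / s k, y k / s k, s k / z0 k] := by
      apply algInd_of_top
      have h0 : 1 / s k ∈ _ := hmem ![1 / s k, y k / s k, s k / z0 k] 0
      have h1 : y k / s k ∈ _ := hmem ![1 / s k, y k / s k, s k / z0 k] 1
      have h2 : s k / z0 k ∈ _ := hmem ![1 / s k, y k / s k, s k / z0 k] 2
      generalize IntermediateField.adjoin k (Set.range ![1 / s k, y k / s k, s k / z0 k]) = L at h0 h1 h2
      have hs : s k ∈ L := by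
        have : s k = (1 / s k)⁻¹ := by field_simp
        rw [this]; exact inv_mem h0
      refine top_of_syz k _ hs ?_ ?_
      · have : y k = y k / s k * s k := by field_simp
        rw [this]; exact mul_mem h1 hs
      · have : z0 k = s k / (s k / z0 k) := by field_simp
        rw [this]; exact div_mem hs h2
    refine smooth_loc ht (1 - X 0 ^ 2 * X 1) ?_ _ ?_
    · intro h; have := congrArg (eval (fun _ => 0)) h; simp at this
    · unfold chart gens
      simp only
      rw [adjoin_four]
      congr 2
      rw [Set.singleton_eq_singleton_iff]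
      simp only [map_sub, map_mul, map_pow, map_one, aeval_X]
      change s k ^ 3 / dd k = (1 - (1 / s k) ^ 2 * (y k / s k))⁻¹
      have : 1 - (1 / s k) ^ 2 * (y k / s k) = dd k / s k ^ 3 := by
        unfold dd; field_simp
      rw [this, inv_div]
  | Q =>
    have ht : AlgebraicIndependent k ![1 / y k, s k / y k, z1 k / z0 k] := by
      apply algInd_of_top
      have h0 : 1 / y k ∈ _ := hmem ![1 / y k, s k / y k, z1 k / z0 k] 0
      have h1 : s k / y k ∈ _ := hmem ![1 / y k, s k / y k, z1 k / z0 k] 1
      have h2 : z1 k / z0 k ∈ _ := hmem ![1 / y k, s k / y k, z1 k / z0 k] 2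
      generalize IntermediateField.adjoin k
          (Set.range ![1 / y k, s k / y k, z1 k / z0 k]) = L at h0 h1 h2
      have hy : y k ∈ L := by
        have : y k = (1 / y k)⁻¹ := by field_simp
        rw [this]; exact inv_mem h0
      have hs : s k ∈ L := by
        have : s k = s k / y k * y k := by field_simp
        rw [this]; exact mul_mem h1 hy
      have hF : F k ∈ L := by
        unfold F fb; exact sub_mem (sub_mem (pow_mem hy 3) (one_mem _)) (pow_mem hs 2)
      have e1 : 1 + z1 k / z0 k * s k = -(y k * v k) / z0 k := by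
        field_simp
        unfold z0; ring
      have n1 : 1 + z1 k / z0 k * s k ≠ 0 := by
        rw [e1]; exact div_ne_zero (neg_ne_zero.mpr (mul_ne_zero ny nv)) nz0
      have e2 : v k * (s k ^ 2 * (1 + z1 k / z0 k * s k) - z1 k / z0 k * y k) =
          -F k * (1 + z1 k / z0 k * s k) := by
        rw [e1]
        field_simp
        unfold z1; ring
      have n2 : s k ^ 2 * (1 + z1 k / z0 k * s k) - z1 k / z0 k * y k ≠ 0 := by
        intro h0
        rw [h0, mul_zero] at e2
        exact mul_ne_zero (neg_ne_zero.mpr nF) n1 e2.symm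
      refine top_of k L hs hy ?_
      have : v k = -F k * (1 + z1 k / z0 k * s k) /
          (s k ^ 2 * (1 + z1 k / z0 k * s k) - z1 k / z0 k * y k) := by
        rw [eq_div_iff n2, e2]
      rw [this]
      have h4 : 1 + z1 k / z0 k * s k ∈ L := add_mem (one_mem _) (mul_mem h2 hs)
      exact div_mem (mul_mem (neg_mem hF) h4)
        (sub_mem (mul_mem (pow_mem hs 2) h4) (mul_mem h2 hy))
    refine smooth_loc ht (1 - X 0 ^ 3 - X 0 * X 1 ^ 2) ?_ _ ?_
    · intro h; have := congrArg (eval (fun _ => 0)) h; simp at this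
    · unfold chart gens
      simp only
      rw [adjoin_four]
      congr 2
      rw [Set.singleton_eq_singleton_iff]
      simp only [map_sub, map_mul, map_pow, map_one, aeval_X]
      change y k ^ 3 / F k = (1 - (1 / y k) ^ 3 - (1 / y k) * (s k / y k) ^ 2)⁻¹
      have : 1 - (1 / y k) ^ 3 - (1 / y k) * (s k / y k) ^ 2 = F k / y k ^ 3 := by
        unfold F fb; field_simp
      rw [this, inv_div]
  | A =>
    have ht : AlgebraicIndependent k ![y k * P0 k / (fb k * z1 k), P0 k / (fb k * z1 k),
        s k * fb k * z1 k ^ 2 / P0 k ^ 2] := by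
      apply algInd_of_top
      have h0 : y k * P0 k / (fb k * z1 k) ∈ _ := hmem ![y k * P0 k / (fb k * z1 k),
        P0 k / (fb k * z1 k), s k * fb k * z1 k ^ 2 / P0 k ^ 2] 0
      have h1 : P0 k / (fb k * z1 k) ∈ _ := hmem ![y k * P0 k / (fb k * z1 k),
        P0 k / (fb k * z1 k), s k * fb k * z1 k ^ 2 / P0 k ^ 2] 1
      have h2 : s k * fb k * z1 k ^ 2 / P0 k ^ 2 ∈ _ := hmem ![y k * P0 k / (fb k * z1 k),
        P0 k / (fb k * z1 k), s k * fb k * z1 k ^ 2 / P0 k ^ 2] 2
      generalize IntermediateField.adjoin k (Set.range ![y k * P0 k / (fb k * z1 k),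
        P0 k / (fb k * z1 k), s k * fb k * z1 k ^ 2 / P0 k ^ 2]) = L at h0 h1 h2
      refine top_of_ypq k _ ?_ h1 ?_
      · have : y k = y k * P0 k / (fb k * z1 k) / (P0 k / (fb k * z1 k)) := by field_simp
        rw [this]; exact div_mem h0 h1
      · have : s k / fb k = s k * fb k * z1 k ^ 2 / P0 k ^ 2 * (P0 k / (fb k * z1 k)) ^ 2 := by
          field_simp
        rw [this]; exact mul_mem h2 (pow_mem h1 2)
    refine smooth_loc ht (1 - X 2 ^ 2 * X 1 * (X 0 ^ 3 - X 1 ^ 3)) ?_ _ ?_
    · intro h; have := congrArg (eval (fun _ => 0)) h; simp at this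
    · unfold chart gens
      simp only
      rw [adjoin_four]
      congr 2
      rw [Set.singleton_eq_singleton_iff]
      simp only [map_sub, map_mul, map_pow, map_one, aeval_X]
      change fb k / F k = (1 - (s k * fb k * z1 k ^ 2 / P0 k ^ 2) ^ 2 * (P0 k / (fb k * z1 k)) *
        ((y k * P0 k / (fb k * z1 k)) ^ 3 - (P0 k / (fb k * z1 k)) ^ 3))⁻¹
      have e1 : (y k * P0 k / (fb k * z1 k)) ^ 3 - (P0 k / (fb k * z1 k)) ^ 3 =
        fb k * (P0 k / (fb k * z1 k)) ^ 3 := by
        have : fb k = y k ^ 3 - 1 := rfl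
        have h5 : y k * P0 k / (fb k * z1 k) = y k * (P0 k / (fb k * z1 k)) := by ring
        rw [h5]
        generalize P0 k / (fb k * z1 k) = p
        rw [this]; ring
      have : 1 - (s k * fb k * z1 k ^ 2 / P0 k ^ 2) ^ 2 * (P0 k / (fb k * z1 k)) *
        ((y k * P0 k / (fb k * z1 k)) ^ 3 - (P0 k / (fb k * z1 k)) ^ 3) = F k / fb k := by
        rw [e1]
        have : F k = fb k - s k ^ 2 := rfl
        rw [this]
        field_simp
      rw [this, inv_div]
  | B =>
    have ht : AlgebraicIndependent k ![y k * s k * z1 k / P0 k, s k * z1 k / P0 k,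
        P0 k ^ 2 / (s k * fb k * z1 k ^ 2)] := by
      apply algInd_of_top
      have h0 : y k * s k * z1 k / P0 k ∈ _ := hmem ![y k * s k * z1 k / P0 k, s k * z1 k / P0 k,
        P0 k ^ 2 / (s k * fb k * z1 k ^ 2)] 0
      have h1 : s k * z1 k / P0 k ∈ _ := hmem ![y k * s k * z1 k / P0 k, s k * z1 k / P0 k,
        P0 k ^ 2 / (s k * fb k * z1 k ^ 2)] 1
      have h2 : P0 k ^ 2 / (s k * fb k * z1 k ^ 2) ∈ _ := hmem ![y k * s k * z1 k / P0 k,
        s k * z1 k / P0 k, P0 k ^ 2 / (s k * fb k * z1 k ^ 2)] 2
      generalize IntermediateField.adjoin k (Set.range ![y k * s k * z1 k / P0 k,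
        s k * z1 k / P0 k, P0 k ^ 2 / (s k * fb k * z1 k ^ 2)]) = L at h0 h1 h2
      refine top_of_ypq k _ ?_ ?_ ?_
      · have : y k = y k * s k * z1 k / P0 k / (s k * z1 k / P0 k) := by field_simp
        rw [this]; exact div_mem h0 h1
      · have : P0 k / (fb k * z1 k) = s k * z1 k / P0 k *
            (P0 k ^ 2 / (s k * fb k * z1 k ^ 2)) := by field_simp
        rw [this]; exact mul_mem h1 h2
      · have : s k / fb k = (s k * z1 k / P0 k) ^ 2 *
            (P0 k ^ 2 / (s k * fb k * z1 k ^ 2)) := by field_simp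
        rw [this]; exact mul_mem (pow_mem h1 2) h2
    refine smooth_loc ht (1 - X 1 * X 2 ^ 2 * (X 0 ^ 3 - X 1 ^ 3)) ?_ _ ?_
    · intro h; have := congrArg (eval (fun _ => 0)) h; simp at this
    · unfold chart gens
      simp only
      rw [adjoin_four]
      congr 2
      rw [Set.singleton_eq_singleton_iff]
      simp only [map_sub, map_mul, map_pow, map_one, aeval_X]
      change fb k / F k = (1 - (s k * z1 k / P0 k) * (P0 k ^ 2 / (s k * fb k * z1 k ^ 2)) ^ 2 *
        ((y k * s k * z1 k / P0 k) ^ 3 - (s k * z1 k / P0 k) ^ 3))⁻¹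
      have e1 : (y k * s k * z1 k / P0 k) ^ 3 - (s k * z1 k / P0 k) ^ 3 =
        fb k * (s k * z1 k / P0 k) ^ 3 := by
        have : fb k = y k ^ 3 - 1 := rfl
        have h5 : y k * s k * z1 k / P0 k = y k * (s k * z1 k / P0 k) := by ring
        rw [h5]
        generalize s k * z1 k / P0 k = p
        rw [this]; ring
      have : 1 - (s k * z1 k / P0 k) * (P0 k ^ 2 / (s k * fb k * z1 k ^ 2)) ^ 2 *
        ((y k * s k * z1 k / P0 k) ^ 3 - (s k * z1 k / P0 k) ^ 3) = F k / fb k := by
        rw [e1]
        have : F k = fb k - s k ^ 2 := rfl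
        rw [this]
        field_simp
      rw [this, inv_div]
  | C =>
    have ht : AlgebraicIndependent k ![y k, P0 k / (s k * z1 k), s k / fb k] := by
      apply algInd_of_top
      have h0 : y k ∈ _ := hmem ![y k, P0 k / (s k * z1 k), s k / fb k] 0
      have h1 : P0 k / (s k * z1 k) ∈ _ := hmem ![y k, P0 k / (s k * z1 k), s k / fb k] 1
      have h2 : s k / fb k ∈ _ := hmem ![y k, P0 k / (s k * z1 k), s k / fb k] 2
      refine top_of_ypq k _ h0 ?_ h2
      have : P0 k / (fb k * z1 k) = P0 k / (s k * z1 k) * (s k / fb k) := by field_simp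
      rw [this]; exact mul_mem h1 h2
    refine smooth_loc ht (1 - X 2 ^ 2 * (X 0 ^ 3 - 1)) ?_ _ ?_
    · intro h; have := congrArg (eval (fun _ => 0)) h; simp at this
    · unfold chart gens
      simp only
      rw [adjoin_four]
      congr 2
      rw [Set.singleton_eq_singleton_iff]
      simp only [map_sub, map_mul, map_pow, map_one, aeval_X]
      change fb k / F k = (1 - (s k / fb k) ^ 2 * (y k ^ 3 - 1))⁻¹
      have : 1 - (s k / fb k) ^ 2 * (y k ^ 3 - 1) = F k / fb k := by
        have h5 : y k ^ 3 - 1 = fb k := rfl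
        have : F k = fb k - s k ^ 2 := rfl
        rw [this, h5]
        field_simp
      rw [this, inv_div]
  | D =>
    have ht : AlgebraicIndependent k ![1 / y k, P0 k / (y k * s k * z1 k),
        y k ^ 2 * s k / fb k] := by
      apply algInd_of_top
      have h0 : 1 / y k ∈ _ := hmem ![1 / y k, P0 k / (y k * s k * z1 k),
        y k ^ 2 * s k / fb k] 0
      have h1 : P0 k / (y k * s k * z1 k) ∈ _ := hmem ![1 / y k, P0 k / (y k * s k * z1 k),
        y k ^ 2 * s k / fb k] 1
      have h2 : y k ^ 2 * s k / fb k ∈ _ := hmem ![1 / y k, P0 k / (y k * s k * z1 k),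
        y k ^ 2 * s k / fb k] 2
      generalize IntermediateField.adjoin k (Set.range ![1 / y k, P0 k / (y k * s k * z1 k),
        y k ^ 2 * s k / fb k]) = L at h0 h1 h2
      have hy : y k ∈ L := by
        have : y k = (1 / y k)⁻¹ := by field_simp
        rw [this]; exact inv_mem h0
      have hq : s k / fb k ∈ L := by
        have : s k / fb k = y k ^ 2 * s k / fb k / y k ^ 2 := by field_simp
        rw [this]; exact div_mem h2 (pow_mem hy 2)
      refine top_of_ypq k _ hy ?_ hq
      have : P0 k / (fb k * z1 k) = P0 k / (y k * s k * z1 k) * y k * (s k / fb k) := by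
        field_simp
      rw [this]; exact mul_mem (mul_mem h1 hy) hq
    refine smooth_loc ht (1 - X 2 ^ 2 * X 0 * (1 - X 0 ^ 3)) ?_ _ ?_
    · intro h; have := congrArg (eval (fun _ => 0)) h; simp at this
    · unfold chart gens
      simp only
      rw [adjoin_four]
      congr 2
      rw [Set.singleton_eq_singleton_iff]
      simp only [map_sub, map_mul, map_pow, map_one, aeval_X]
      change fb k / F k = (1 - (y k ^ 2 * s k / fb k) ^ 2 * (1 / y k) * (1 - (1 / y k) ^ 3))⁻¹
      have e1 : 1 - (1 / y k) ^ 3 = fb k / y k ^ 3 := by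
        have : fb k = y k ^ 3 - 1 := rfl
        rw [this]; field_simp
      have : 1 - (y k ^ 2 * s k / fb k) ^ 2 * (1 / y k) * (1 - (1 / y k) ^ 3) = F k / fb k := by
        rw [e1]
        have : F k = fb k - s k ^ 2 := rfl
        rw [this]
        field_simp
      rw [this, inv_div]

end

end Helper50.D71
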