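import Pool.Agent.Helper50.D71.NZ

/-!
# Definitions used by block U (verbatim from `d71_requests.lean`)
-/

open MvPolynomial

universe u

namespace Helper50.D71

section Special

variable (k : Type u) [Field k]

/-- `φ · G(t) = P(t)` -/
def IsQuot (t : Fin 3 → KK k) (φ : KK k) (P G : MvPolynomial (Fin 3) k) : Prop :=
  φ * aeval t G = aeval t P

/-- coordinates of the chart `B` -/
noncomputable def tB : Fin 3 → KK k :=
  ![y k * s k * z1 k / P0 k, s k * z1 k / P0 k, P0 k ^ 2 / (s k * fb k * z1 k ^ 2)]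

/-- coordinates `(s,y,v)` -/
noncomputable def tW : Fin 3 → KK k := ![s k, y k, v k]

/-- `κ_ω` (times `z₁³`) -/
noncomputable def kap (ω : k) : KK k :=
  z1 k ^ 3 + (z0 k + algebraMap k (KK k) ω * v k) * z1 k * s k +
    (z0 k + algebraMap k (KK k) ω * v k) ^ 2 * v k

/-- `v⁴ - s z₁³` -/
noncomputable def Yr : KK k := v k ^ 4 - s k * z1 k ^ 3

/-- `κ₁ κ_w κ_{w²}` -/
noncomputable def kapProd (w : k) : KK k := kap k 1 * kap k w * kap k (w ^ 2)

/-- `A_x = A_B[1/(κ₁ κ_w κ_{w²} / z₁⁹)]` -/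
noncomputable def Ax (w : k) : Subalgebra k (KK k) :=
  chart k .B ⊔ Algebra.adjoin k {z1 k ^ 9 / kapProd k w}

/-- `A_r = k[s,y,1/v][v⁴/(v⁴ - s z₁³)]` -/
noncomputable def Ar : Subalgebra k (KK k) :=
  chart k .W ⊔ Algebra.adjoin k {v k ^ 4 / Yr k}

/-- the transition function -/
noncomputable def phi (w : k) : KK k :=
  s k * P0 k * F k * z1 k ^ 3 * kapProd k w ^ 5 / (fb k ^ 4 * v k * Yr k ^ 12)

end Special

end Helper50.D71
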