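import Pool.Agent.Helper64.D71.UAlg
import Pool.Agent.Helper64.D71.UDefs

/-!
# Block U : the open set `U₀ = Spec Ax ∪ Spec Ar`
-/

open MvPolynomial

universe u

namespace Helper50.D71

lemma inv_mem_of_mul {k : Type u} [Field k] {K : Type u} [Field K] [Algebra k K]
    {A : Subalgebra k K} {x : K} (a r : K) (hx : x = a * r) (hx0 : x ≠ 0) (hr : r ∈ A)
    (hxi : x⁻¹ ∈ A) : a⁻¹ ∈ A := by
  have ha : a ≠ 0 := by rintro rfl; simp [hx] at hx0
  have hr0 : r ≠ 0 := by rintro rfl; simp [hx] at hx0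
  have : a⁻¹ = r * x⁻¹ := by rw [hx]; field_simp
  rw [this]
  exact mul_mem hr hxi

section Special

variable (k : Type u) [Field k]

/-- the coordinates -/
noncomputable def B1 : KK k := y k * s k * z1 k / P0 k
noncomputable def B2 : KK k := s k * z1 k / P0 k
noncomputable def B3 : KK k := P0 k ^ 2 / (s k * fb k * z1 k ^ 2)
noncomputable def Be : KK k := fb k / F k

lemma datB : DatB (s k) (y k) (v k) (fb k) (F k) (z1 k) (z0 k) (P0 k) (B1 k) (B2 k) (B3 k)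
    (Be k) where
  hfb := rfl
  hF := rfl
  hz1 := rfl
  hz0 := rfl
  hP0 := rfl
  s0 := s_ne k
  v0 := v_ne k
  fb0 := fb_ne k
  F0 := F_ne k
  z10 := z1_ne k
  P00 := P0_ne k
  hb1 := rfl
  hb2 := rfl
  hb3 := rfl
  he := rfl

lemma B1_mem : B1 k ∈ chart k .B := Algebra.subset_adjoin (by simp [gens, B1])
lemma B2_mem : B2 k ∈ chart k .B := Algebra.subset_adjoin (by simp [gens, B2])
lemma B3_mem : B3 k ∈ chart k .B := Algebra.subset_adjoin (by simp [gens, B3])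
lemma Be_mem : Be k ∈ chart k .B := Algebra.subset_adjoin (by simp [gens, Be])
lemma Ws_mem : s k ∈ chart k .W := Algebra.subset_adjoin (by simp [gens])
lemma Wy_mem : y k ∈ chart k .W := Algebra.subset_adjoin (by simp [gens])
lemma Wv_mem : 1 / v k ∈ chart k .W := Algebra.subset_adjoin (by simp [gens])

/-! ### nonvanishing -/

lemma kap_ne (ω : k) : kap k ω ≠ 0 :=
  ne_zero_of ((-(X 0 ^ 2 * X 2 + (X 1 ^ 3 - 1 - X 0 ^ 2))) ^ 3 +
      ((-(X 0 * -(X 0 ^ 2 * X 2 + (X 1 ^ 3 - 1 - X 0 ^ 2))) - X 1 * X 2) + C ω * X 2) *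
        (-(X 0 ^ 2 * X 2 + (X 1 ^ 3 - 1 - X 0 ^ 2))) * X 0 +
      ((-(X 0 * -(X 0 ^ 2 * X 2 + (X 1 ^ 3 - 1 - X 0 ^ 2))) - X 1 * X 2) + C ω * X 2) ^ 2 * X 2)
    ![0, 0, 0] (by simp [kap, z0, z1, F, fb]) (by simp)

lemma Yr_ne : Yr k ≠ 0 :=
  ne_zero_of (X 2 ^ 4 - X 0 * (-(X 0 ^ 2 * X 2 + (X 1 ^ 3 - 1 - X 0 ^ 2))) ^ 3)
    ![0, 0, 1] (by simp [Yr, z1, F, fb]) (by simp)

lemma kapProd_ne (w : k) : kapProd k w ≠ 0 :=
  mul_ne_zero (mul_ne_zero (kap_ne k _) (kap_ne k _)) (kap_ne k _)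

theorem phi_ne (w : k) (_hw : w ^ 2 + w + 1 = 0) : phi k w ≠ 0 := by
  have h1 := s_ne k; have h2 := P0_ne k; have h3 := F_ne k; have h4 := z1_ne k
  have h5 := kapProd_ne k w; have h6 := fb_ne k; have h7 := v_ne k; have h8 := Yr_ne k
  unfold phi
  exact div_ne_zero (mul_ne_zero (mul_ne_zero (mul_ne_zero (mul_ne_zero h1 h2) h3)
    (pow_ne_zero _ h4)) (pow_ne_zero _ h5)) (mul_ne_zero (mul_ne_zero (pow_ne_zero _ h6) h7)
    (pow_ne_zero _ h8))

/-! ### the chart `B` -/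

lemma vB_mem : v k / z1 k ∈ chart k .B := by
  have h1 := B1_mem k; have h2 := B2_mem k; have h3 := B3_mem k
  rw [(datB k).v_eq]
  exact neg_mem (mul_mem h3 (add_mem h2 (pow_mem h1 2)))

lemma z0B_mem : z0 k / z1 k ∈ chart k .B := by
  have h1 := B1_mem k; have h2 := B2_mem k; have h3 := B3_mem k
  rw [(datB k).z0_eq]
  exact mul_mem h3 (add_mem h1 (pow_mem h2 2))

lemma sB_mem : s k / z1 k ∈ chart k .B := by
  have h1 := B1_mem k; have h2 := B2_mem k; have h3 := B3_mem k; have h4 := Be_mem k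
  rw [(datB k).sz_eq]
  exact mul_mem (neg_mem (sub_mem (mul_mem (pow_mem h2 2) h3) (mul_mem (mul_mem (pow_mem h3 4)
    (pow_mem (sub_mem (pow_mem h1 3) (pow_mem h2 3)) 2)) (add_mem h2 (pow_mem h1 2))))) h4

lemma kapB_mem (ω : k) : kap k ω / z1 k ^ 3 ∈ chart k .B := by
  have h1 := vB_mem k; have h2 := z0B_mem k; have h3 := sB_mem k
  have h4 : algebraMap k (KK k) ω ∈ chart k .B := Subalgebra.algebraMap_mem _ _
  unfold kap
  rw [(datB k).kap_eq (algebraMap k (KK k) ω)]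
  exact add_mem (add_mem (one_mem _) (mul_mem (add_mem h2 (mul_mem h4 h1)) h3))
    (mul_mem (pow_mem (add_mem h2 (mul_mem h4 h1)) 2) h1)

lemma kapProd_div (w : k) : kapProd k w / z1 k ^ 9 =
    (kap k 1 / z1 k ^ 3) * (kap k w / z1 k ^ 3) * (kap k (w ^ 2) / z1 k ^ 3) := by
  have h4 := z1_ne k
  unfold kapProd
  field_simp

lemma kapProdB_mem (w : k) : kapProd k w / z1 k ^ 9 ∈ chart k .B := by
  rw [kapProd_div]
  exact mul_mem (mul_mem (kapB_mem k _) (kapB_mem k _)) (kapB_mem k _)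

lemma isLocOf_Ax' (w : k) : IsLocOf (chart k .B) (Ax k w) := by
  refine ⟨kapProd k w / z1 k ^ 9, kapProdB_mem k w,
    div_ne_zero (kapProd_ne k w) (pow_ne_zero _ (z1_ne k)), ?_, le_sup_left, ?_⟩
  · rw [inv_div]
    exact (le_sup_right : _ ≤ chart k .B ⊔ Algebra.adjoin k {z1 k ^ 9 / kapProd k w})
      (Algebra.subset_adjoin rfl)
  · rw [inv_div]
    exact le_rfl

theorem isLocOf_Ax [CharZero k] (w : k) (_hw : w ^ 2 + w + 1 = 0) :
    IsLocOf (chart k .B) (Ax k w) := isLocOf_Ax' k w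

/-! ### the chart `W` -/

lemma z1W_mem : z1 k / v k ∈ chart k .W := by
  have h1 := Ws_mem k; have h2 := Wy_mem k; have h3 := Wv_mem k
  have h4 := v_ne k
  have : z1 k / v k = -(s k ^ 2 + (y k ^ 3 - 1 - s k ^ 2) * (1 / v k)) := by
    unfold z1 F fb
    field_simp
  rw [this]
  repeat' (first | assumption | exact one_mem _ | exact zero_mem _ | exact Subalgebra.algebraMap_mem _ _ | exact ofNat_mem _ _ | exact natCast_mem _ _ | apply sub_mem | apply add_mem | apply mul_mem | apply pow_mem | apply neg_mem)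

lemma z0W_mem : z0 k / v k ∈ chart k .W := by
  have h1 := Ws_mem k; have h2 := Wy_mem k; have h3 := z1W_mem k
  have h4 := v_ne k
  have : z0 k / v k = -(s k * (z1 k / v k)) - y k := by
    unfold z0
    field_simp
  rw [this]
  repeat' (first | assumption | exact one_mem _ | exact zero_mem _ | exact Subalgebra.algebraMap_mem _ _ | exact ofNat_mem _ _ | exact natCast_mem _ _ | apply sub_mem | apply add_mem | apply mul_mem | apply pow_mem | apply neg_mem)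

lemma P0W_mem : P0 k / v k ∈ chart k .W := by
  have h1 := Ws_mem k; have h2 := Wy_mem k; have h3 := z0W_mem k
  have h4 := v_ne k
  have : P0 k / v k = 1 + y k ^ 2 * (z0 k / v k) := by
    unfold P0
    field_simp
  rw [this]
  repeat' (first | assumption | exact one_mem _ | exact zero_mem _ | exact Subalgebra.algebraMap_mem _ _ | exact ofNat_mem _ _ | exact natCast_mem _ _ | apply sub_mem | apply add_mem | apply mul_mem | apply pow_mem | apply neg_mem)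

lemma fbW_mem : fb k ∈ chart k .W := by
  have h2 := Wy_mem k
  unfold fb
  repeat' (first | assumption | exact one_mem _ | exact zero_mem _ | exact Subalgebra.algebraMap_mem _ _ | exact ofNat_mem _ _ | exact natCast_mem _ _ | apply sub_mem | apply add_mem | apply mul_mem | apply pow_mem | apply neg_mem)

lemma FW_mem : F k ∈ chart k .W := by
  have h2 := fbW_mem k; have h1 := Ws_mem k
  unfold F
  repeat' (first | assumption | exact one_mem _ | exact zero_mem _ | exact Subalgebra.algebraMap_mem _ _ | exact ofNat_mem _ _ | exact natCast_mem _ _ | apply sub_mem | apply add_mem | apply mul_mem | apply pow_mem | apply neg_mem)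

lemma YrW_mem : Yr k / v k ^ 4 ∈ chart k .W := by
  have h1 := Ws_mem k; have h2 := z1W_mem k; have h3 := Wv_mem k
  have h4 := v_ne k
  have : Yr k / v k ^ 4 = 1 - s k * (z1 k / v k) ^ 3 * (1 / v k) := by
    unfold Yr
    field_simp
  rw [this]
  repeat' (first | assumption | exact one_mem _ | exact zero_mem _ | exact Subalgebra.algebraMap_mem _ _ | exact ofNat_mem _ _ | exact natCast_mem _ _ | apply sub_mem | apply add_mem | apply mul_mem | apply pow_mem | apply neg_mem)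

theorem isLocOf_Ar : IsLocOf (chart k .W) (Ar k) := by
  refine ⟨Yr k / v k ^ 4, YrW_mem k,
    div_ne_zero (Yr_ne k) (pow_ne_zero _ (v_ne k)), ?_, le_sup_left, ?_⟩
  · rw [inv_div]
    exact (le_sup_right : _ ≤ chart k .W ⊔ Algebra.adjoin k {v k ^ 4 / Yr k})
      (Algebra.subset_adjoin rfl)
  · rw [inv_div]
    exact le_rfl

/-- `λ_ω` -/
noncomputable def lam (ω : k) : KK k :=
  (-(y k ^ 2 + algebraMap k (KK k) ω * y k + algebraMap k (KK k) ω ^ 2) * z1 k ^ 2 +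
    v k * (-(s k * z1 k) + 2 * s k * z1 k * v k + (y k - algebraMap k (KK k) ω) * v k ^ 2))

lemma lamW_mem (ω : k) : lam k ω / v k ^ 3 ∈ chart k .W := by
  have h1 := Ws_mem k; have h2 := Wy_mem k; have h3 := Wv_mem k; have h4 := z1W_mem k
  unfold lam
  rw [(datB k).toDat.lam_eq (algebraMap k (KK k) ω)]
  repeat' (first | assumption | exact one_mem _ | exact zero_mem _ | exact Subalgebra.algebraMap_mem _ _ | exact ofNat_mem _ _ | exact natCast_mem _ _ | apply sub_mem | apply add_mem | apply mul_mem | apply pow_mem | apply neg_mem)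

lemma kap_lam (ω : k) (hω : ω ^ 3 = 1) :
    kap k ω = (y k - algebraMap k (KK k) ω) * lam k ω := by
  unfold kap lam
  exact (datB k).toDat.kap_lam (algebraMap k (KK k) ω) (by rw [← map_pow, hω, map_one])

lemma kapProd_eq (w : k) (hw : w ^ 2 + w + 1 = 0) :
    kapProd k w = fb k * (lam k 1 * lam k w * lam k (w ^ 2)) := by
  have h3 : w ^ 3 = 1 := by linear_combination (w - 1) * hw
  have h1 : (algebraMap k (KK k) w) ^ 2 + algebraMap k (KK k) w + 1 = 0 := by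
    rw [← map_pow, ← map_add, ← map_one (algebraMap k (KK k)), ← map_add, hw, map_zero]
  rw [← fb_fac (datB k).toDat h1]
  unfold kapProd
  rw [kap_lam k 1 (by ring), kap_lam k w h3, kap_lam k (w ^ 2) (by rw [← pow_mul, mul_comm, pow_mul, h3, one_pow]),
    map_pow, map_one]
  ring

lemma phi_eq (w : k) (hw : w ^ 2 + w + 1 = 0) :
    phi k w = s k * (P0 k / v k) * F k * (z1 k / v k) ^ 3 * fb k *
      ((lam k 1 / v k ^ 3) * (lam k w / v k ^ 3) * (lam k (w ^ 2) / v k ^ 3)) ^ 5 *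
        (v k ^ 4 / Yr k) ^ 12 := by
  have h1 := fb_ne k; have h2 := v_ne k; have h3 := Yr_ne k
  unfold phi
  rw [kapProd_eq k w hw]
  field_simp

lemma W_le_Ar : chart k .W ≤ Ar k := le_sup_left

lemma YrAr_mem : v k ^ 4 / Yr k ∈ Ar k :=
  (le_sup_right : _ ≤ chart k .W ⊔ Algebra.adjoin k {v k ^ 4 / Yr k})
      (Algebra.subset_adjoin rfl)

lemma B_le_Ax (w : k) : chart k .B ≤ Ax k w := le_sup_left

lemma cAx_mem (w : k) : z1 k ^ 9 / kapProd k w ∈ Ax k w :=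
  (le_sup_right : _ ≤ chart k .B ⊔ Algebra.adjoin k {z1 k ^ 9 / kapProd k w})
      (Algebra.subset_adjoin rfl)

theorem phi_mem (w : k) (hw : w ^ 2 + w + 1 = 0) : phi k w ∈ Ar k := by
  rw [phi_eq k w hw]
  have h := W_le_Ar k
  exact mul_mem (mul_mem (mul_mem (mul_mem (mul_mem (mul_mem (h (Ws_mem k)) (h (P0W_mem k)))
    (h (FW_mem k))) (pow_mem (h (z1W_mem k)) 3)) (h (fbW_mem k)))
    (pow_mem (mul_mem (mul_mem (h (lamW_mem k _)) (h (lamW_mem k _))) (h (lamW_mem k _))) 5))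
    (pow_mem (YrAr_mem k) 12)

/-- the cofactor `m` -/
noncomputable def mm : KK k :=
  (B2 k + B1 k ^ 2) * B3 k ^ 3 * (B2 k ^ 2 + 3 * B2 k * B1 k ^ 2 + 3 * B1 k ^ 4 +
    2 * B1 k ^ 3 * B2 k ^ 2 - B2 k ^ 5) + B2 k -
    B3 k ^ 5 * (B2 k + B1 k ^ 2) ^ 4 * (B1 k ^ 3 - B2 k ^ 3)

lemma mm_mem : mm k ∈ chart k .B := by
  have h1 := B1_mem k; have h2 := B2_mem k; have h3 := B3_mem k
  have a1 : B2 k + B1 k ^ 2 ∈ chart k .B := add_mem h2 (pow_mem h1 2)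
  have a2 : B1 k ^ 3 - B2 k ^ 3 ∈ chart k .B := sub_mem (pow_mem h1 3) (pow_mem h2 3)
  have n3 : (3 : KK k) ∈ chart k .B := ofNat_mem _ 3
  have n2 : (2 : KK k) ∈ chart k .B := ofNat_mem _ 2
  have a3 : B2 k ^ 2 + 3 * B2 k * B1 k ^ 2 + 3 * B1 k ^ 4 + 2 * B1 k ^ 3 * B2 k ^ 2 - B2 k ^ 5 ∈
      chart k .B :=
    sub_mem (add_mem (add_mem (add_mem (pow_mem h2 2) (mul_mem (mul_mem n3 h2) (pow_mem h1 2)))
      (mul_mem n3 (pow_mem h1 4))) (mul_mem (mul_mem n2 (pow_mem h1 3)) (pow_mem h2 2)))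
      (pow_mem h2 5)
  exact sub_mem (add_mem (mul_mem (mul_mem a1 (pow_mem h3 3)) a3) h2)
    (mul_mem (mul_mem (pow_mem h3 5) (pow_mem a1 4)) a2)

lemma Yr_div : Yr k / z1 k ^ 4 = B2 k * B3 k * Be k * mm k := by
  unfold Yr mm
  exact (datB k).Yr_eq

lemma phi_inv_eq (w : k) : (phi k w)⁻¹ = -((z1 k ^ 9 / kapProd k w) ^ 5 * Be k ^ 13 *
    mm k ^ 12 * B2 k ^ 6 * B3 k ^ 11 * (B1 k ^ 3 - B2 k ^ 3) * (B2 k + B1 k ^ 2)) := by
  have h1 := s_ne k; have h2 := P0_ne k; have h3 := F_ne k; have h4 := z1_ne k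
  have h5 := kapProd_ne k w; have h6 := fb_ne k; have h7 := v_ne k; have h8 := Yr_ne k
  have h9 := (datB k).b20; have h10 := (datB k).b30
  have e1 : (phi k w)⁻¹ = (z1 k ^ 9 / kapProd k w) ^ 5 * (Yr k / z1 k ^ 4) ^ 12 * Be k *
      (fb k ^ 3 * v k / (s k * P0 k)) := by
    unfold phi Be
    field_simp
  rw [e1, Yr_div]
  have e2 := (datB k).last_eq
  linear_combination ((z1 k ^ 9 / kapProd k w) ^ 5 * Be k ^ 13 *
    mm k ^ 12 * B2 k ^ 6 * B3 k ^ 11) * e2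

/-- `b₁³ - b₂³` -/
noncomputable def DD : KK k := B1 k ^ 3 - B2 k ^ 3
/-- `b₂ + b₁²` -/
noncomputable def GG : KK k := B2 k + B1 k ^ 2

lemma DD_mem : DD k ∈ chart k .B := sub_mem (pow_mem (B1_mem k) 3) (pow_mem (B2_mem k) 3)
lemma GG_mem : GG k ∈ chart k .B := add_mem (B2_mem k) (pow_mem (B1_mem k) 2)

theorem phi_inv_mem (w : k) (_hw : w ^ 2 + w + 1 = 0) : (phi k w)⁻¹ ∈ Ax k w := by
  rw [phi_inv_eq]
  have h := B_le_Ax k w
  exact neg_mem (mul_mem (mul_mem (mul_mem (mul_mem (mul_mem (mul_mem (pow_mem (cAx_mem k w) 5)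
    (pow_mem (h (Be_mem k)) 13)) (pow_mem (h (mm_mem k)) 12)) (pow_mem (h (B2_mem k)) 6))
    (pow_mem (h (B3_mem k)) 11)) (h (DD_mem k))) (h (GG_mem k)))

theorem sup_le_Ax (w : k) (hw : w ^ 2 + w + 1 = 0) :
    Ax k w ⊔ Ar k ≤ Ax k w ⊔ Algebra.adjoin k {phi k w} := by
  have hx : Ax k w ≤ Ax k w ⊔ Algebra.adjoin k {phi k w} := le_sup_left
  have hp : ((phi k w)⁻¹)⁻¹ ∈ Ax k w ⊔ Algebra.adjoin k {phi k w} := by
    rw [inv_inv]
    exact (le_sup_right : _ ≤ Ax k w ⊔ Algebra.adjoin k {phi k w}) (Algebra.subset_adjoin rfl)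
  have hp0 : (phi k w)⁻¹ ≠ 0 := inv_ne_zero (phi_ne k w hw)
  generalize Ax k w ⊔ Algebra.adjoin k {phi k w} = T at hx hp
  have hB : chart k .B ≤ T := (B_le_Ax k w).trans hx
  have c1 : z1 k ^ 9 / kapProd k w ∈ T := hx (cAx_mem k w)
  have b1 := hB (B1_mem k)
  have b2 := hB (B2_mem k)
  have b3 := hB (B3_mem k)
  have be := hB (Be_mem k)
  have bm := hB (mm_mem k)
  have bD := hB (DD_mem k)
  have bG := hB (GG_mem k)
  have e0 : (phi k w)⁻¹ = -((z1 k ^ 9 / kapProd k w) ^ 5 * Be k ^ 13 *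
    mm k ^ 12 * B2 k ^ 6 * B3 k ^ 11 * DD k * GG k) := phi_inv_eq k w
  -- inverses
  have i2 : (B2 k)⁻¹ ∈ T := inv_mem_of_mul (B2 k) (-((z1 k ^ 9 / kapProd k w) ^ 5 * Be k ^ 13 *
    mm k ^ 12 * B2 k ^ 5 * B3 k ^ 11 * DD k * GG k)) (by rw [e0]; ring) hp0
    (neg_mem (mul_mem (mul_mem (mul_mem (mul_mem (mul_mem (mul_mem (pow_mem c1 5)
    (pow_mem be 13)) (pow_mem bm 12)) (pow_mem b2 5)) (pow_mem b3 11)) bD) bG)) hp
  have i3 : (B3 k)⁻¹ ∈ T := inv_mem_of_mul (B3 k) (-((z1 k ^ 9 / kapProd k w) ^ 5 * Be k ^ 13 *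
    mm k ^ 12 * B2 k ^ 6 * B3 k ^ 10 * DD k * GG k)) (by rw [e0]; ring) hp0
    (neg_mem (mul_mem (mul_mem (mul_mem (mul_mem (mul_mem (mul_mem (pow_mem c1 5)
    (pow_mem be 13)) (pow_mem bm 12)) (pow_mem b2 6)) (pow_mem b3 10)) bD) bG)) hp
  have ie : (Be k)⁻¹ ∈ T := inv_mem_of_mul (Be k) (-((z1 k ^ 9 / kapProd k w) ^ 5 * Be k ^ 12 *
    mm k ^ 12 * B2 k ^ 6 * B3 k ^ 11 * DD k * GG k)) (by rw [e0]; ring) hp0
    (neg_mem (mul_mem (mul_mem (mul_mem (mul_mem (mul_mem (mul_mem (pow_mem c1 5)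
    (pow_mem be 12)) (pow_mem bm 12)) (pow_mem b2 6)) (pow_mem b3 11)) bD) bG)) hp
  have im : (mm k)⁻¹ ∈ T := inv_mem_of_mul (mm k) (-((z1 k ^ 9 / kapProd k w) ^ 5 * Be k ^ 13 *
    mm k ^ 11 * B2 k ^ 6 * B3 k ^ 11 * DD k * GG k)) (by rw [e0]; ring) hp0
    (neg_mem (mul_mem (mul_mem (mul_mem (mul_mem (mul_mem (mul_mem (pow_mem c1 5)
    (pow_mem be 13)) (pow_mem bm 11)) (pow_mem b2 6)) (pow_mem b3 11)) bD) bG)) hp
  have iD : (DD k)⁻¹ ∈ T := inv_mem_of_mul (DD k) (-((z1 k ^ 9 / kapProd k w) ^ 5 * Be k ^ 13 *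
    mm k ^ 12 * B2 k ^ 6 * B3 k ^ 11 * GG k)) (by rw [e0]; ring) hp0
    (neg_mem (mul_mem (mul_mem (mul_mem (mul_mem (mul_mem (pow_mem c1 5)
    (pow_mem be 13)) (pow_mem bm 12)) (pow_mem b2 6)) (pow_mem b3 11)) bG)) hp
  have iG : (GG k)⁻¹ ∈ T := inv_mem_of_mul (GG k) (-((z1 k ^ 9 / kapProd k w) ^ 5 * Be k ^ 13 *
    mm k ^ 12 * B2 k ^ 6 * B3 k ^ 11 * DD k)) (by rw [e0]; ring) hp0
    (neg_mem (mul_mem (mul_mem (mul_mem (mul_mem (mul_mem (pow_mem c1 5)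
    (pow_mem be 13)) (pow_mem bm 12)) (pow_mem b2 6)) (pow_mem b3 11)) bD)) hp
  -- the generators
  have n2 := (datB k).b20
  have n3 := (datB k).b30
  have ns := s_ne k
  have nz := z1_ne k
  have nv := v_ne k
  have hy : y k ∈ T := by
    have : y k = B1 k * (B2 k)⁻¹ := by rw [← (datB k).y_eq]; field_simp
    rw [this]; exact mul_mem b1 i2
  have hs : s k ∈ T := by
    have : s k = B3 k * DD k * (B2 k)⁻¹ := by
      unfold DD; rw [(datB k).s_eq]; field_simp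
    rw [this]; exact mul_mem (mul_mem b3 bD) i2
  have hsi : (s k)⁻¹ ∈ T := by
    have : (s k)⁻¹ = (B3 k)⁻¹ * (DD k)⁻¹ * B2 k := by
      rw [← mul_inv]; unfold DD; rw [(datB k).s_eq]; field_simp
    rw [this]; exact mul_mem (mul_mem i3 iD) b2
  have hzi : (z1 k)⁻¹ ∈ T := by
    have : (z1 k)⁻¹ = (s k / z1 k) * (s k)⁻¹ := by field_simp
    rw [this]; exact mul_mem (hB (sB_mem k)) hsi
  have hvz : (v k / z1 k)⁻¹ ∈ T := by
    have : (v k / z1 k)⁻¹ = -((B3 k)⁻¹ * (GG k)⁻¹) := by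
      rw [← mul_inv]; unfold GG; rw [(datB k).v_eq, inv_neg]
    rw [this]; exact neg_mem (mul_mem i3 iG)
  have hv : 1 / v k ∈ T := by
    have : 1 / v k = (v k / z1 k)⁻¹ * (z1 k)⁻¹ := by field_simp
    rw [this]; exact mul_mem hvz hzi
  have hY : v k ^ 4 / Yr k ∈ T := by
    have : v k ^ 4 / Yr k = (v k / z1 k) ^ 4 * (Yr k / z1 k ^ 4)⁻¹ := by
      have := Yr_ne k
      field_simp
    rw [this, Yr_div, mul_inv, mul_inv, mul_inv]
    exact mul_mem (pow_mem (hB (vB_mem k)) 4) (mul_mem (mul_mem (mul_mem i2 i3) ie) im)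
  refine sup_le hx (sup_le (Algebra.adjoin_le ?_) (Algebra.adjoin_le ?_))
  · intro x hx
    simp only [gens, Set.mem_insert_iff, Set.mem_singleton_iff] at hx
    rcases hx with rfl | rfl | rfl
    · exact hs
    · exact hy
    · exact hv
  · intro x hx
    rw [Set.mem_singleton_iff] at hx
    rw [hx]
    exact hY

theorem sup_le_Ar (w : k) (hw : w ^ 2 + w + 1 = 0) :
    Ax k w ⊔ Ar k ≤ Ar k ⊔ Algebra.adjoin k {(phi k w)⁻¹} := by
  have hx : Ar k ≤ Ar k ⊔ Algebra.adjoin k {(phi k w)⁻¹} := le_sup_left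
  have hp : (phi k w)⁻¹ ∈ Ar k ⊔ Algebra.adjoin k {(phi k w)⁻¹} :=
    (le_sup_right : _ ≤ Ar k ⊔ Algebra.adjoin k {(phi k w)⁻¹}) (Algebra.subset_adjoin rfl)
  have hp0 : phi k w ≠ 0 := phi_ne k w hw
  generalize Ar k ⊔ Algebra.adjoin k {(phi k w)⁻¹} = T at hx hp
  have hW : chart k .W ≤ T := (W_le_Ar k).trans hx
  have as := hW (Ws_mem k)
  have ay := hW (Wy_mem k)
  have aP := hW (P0W_mem k)
  have aF := hW (FW_mem k)
  have az := hW (z1W_mem k)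
  have af := hW (fbW_mem k)
  have al : (lam k 1 / v k ^ 3) * (lam k w / v k ^ 3) * (lam k (w ^ 2) / v k ^ 3) ∈ T :=
    mul_mem (mul_mem (hW (lamW_mem k _)) (hW (lamW_mem k _))) (hW (lamW_mem k _))
  have aY := hx (YrAr_mem k)
  have e0 := phi_eq k w hw
  have i1 : (P0 k / v k)⁻¹ ∈ T := inv_mem_of_mul (P0 k / v k) (s k * F k * (z1 k / v k) ^ 3 *
      fb k * ((lam k 1 / v k ^ 3) * (lam k w / v k ^ 3) * (lam k (w ^ 2) / v k ^ 3)) ^ 5 *
        (v k ^ 4 / Yr k) ^ 12) (by rw [e0]; ring) hp0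
    (mul_mem (mul_mem (mul_mem (mul_mem (mul_mem as aF) (pow_mem az 3)) af) (pow_mem al 5))
      (pow_mem aY 12)) hp
  have i2 : (F k)⁻¹ ∈ T := inv_mem_of_mul (F k) (s k * (P0 k / v k) * (z1 k / v k) ^ 3 *
      fb k * ((lam k 1 / v k ^ 3) * (lam k w / v k ^ 3) * (lam k (w ^ 2) / v k ^ 3)) ^ 5 *
        (v k ^ 4 / Yr k) ^ 12) (by rw [e0]; ring) hp0
    (mul_mem (mul_mem (mul_mem (mul_mem (mul_mem as aP) (pow_mem az 3)) af) (pow_mem al 5))
      (pow_mem aY 12)) hp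
  have i3 : (z1 k / v k)⁻¹ ∈ T := inv_mem_of_mul (z1 k / v k) (s k * (P0 k / v k) * F k *
      (z1 k / v k) ^ 2 *
      fb k * ((lam k 1 / v k ^ 3) * (lam k w / v k ^ 3) * (lam k (w ^ 2) / v k ^ 3)) ^ 5 *
        (v k ^ 4 / Yr k) ^ 12) (by rw [e0]; ring) hp0
    (mul_mem (mul_mem (mul_mem (mul_mem (mul_mem (mul_mem as aP) aF) (pow_mem az 2)) af)
      (pow_mem al 5)) (pow_mem aY 12)) hp
  have i4 : (fb k)⁻¹ ∈ T := inv_mem_of_mul (fb k) (s k * (P0 k / v k) * F k *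
      (z1 k / v k) ^ 3 *
      ((lam k 1 / v k ^ 3) * (lam k w / v k ^ 3) * (lam k (w ^ 2) / v k ^ 3)) ^ 5 *
        (v k ^ 4 / Yr k) ^ 12) (by rw [e0]; ring) hp0
    (mul_mem (mul_mem (mul_mem (mul_mem (mul_mem as aP) aF) (pow_mem az 3))
      (pow_mem al 5)) (pow_mem aY 12)) hp
  have i5 : ((lam k 1 / v k ^ 3) * (lam k w / v k ^ 3) * (lam k (w ^ 2) / v k ^ 3))⁻¹ ∈ T :=
    inv_mem_of_mul ((lam k 1 / v k ^ 3) * (lam k w / v k ^ 3) * (lam k (w ^ 2) / v k ^ 3))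
      (s k * (P0 k / v k) * F k * (z1 k / v k) ^ 3 * fb k *
      ((lam k 1 / v k ^ 3) * (lam k w / v k ^ 3) * (lam k (w ^ 2) / v k ^ 3)) ^ 4 *
        (v k ^ 4 / Yr k) ^ 12) (by rw [e0]; ring) hp0
    (mul_mem (mul_mem (mul_mem (mul_mem (mul_mem (mul_mem as aP) aF) (pow_mem az 3)) af)
      (pow_mem al 4)) (pow_mem aY 12)) hp
  have i6 : (s k)⁻¹ ∈ T := inv_mem_of_mul (s k) ((P0 k / v k) * F k * (z1 k / v k) ^ 3 *
      fb k * ((lam k 1 / v k ^ 3) * (lam k w / v k ^ 3) * (lam k (w ^ 2) / v k ^ 3)) ^ 5 *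
        (v k ^ 4 / Yr k) ^ 12) (by rw [e0]; ring) hp0
    (mul_mem (mul_mem (mul_mem (mul_mem (mul_mem aP aF) (pow_mem az 3)) af) (pow_mem al 5))
      (pow_mem aY 12)) hp
  have nP := P0_ne k
  have ns := s_ne k
  have nz := z1_ne k
  have nv := v_ne k
  have nf := fb_ne k
  have g2 : s k * z1 k / P0 k ∈ T := by
    have : s k * z1 k / P0 k = s k * (z1 k / v k) * (P0 k / v k)⁻¹ := by field_simp
    rw [this]; exact mul_mem (mul_mem as az) i1
  have g1 : y k * s k * z1 k / P0 k ∈ T := by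
    have : y k * s k * z1 k / P0 k = y k * (s k * z1 k / P0 k) := by field_simp
    rw [this]; exact mul_mem ay g2
  have g3 : P0 k ^ 2 / (s k * fb k * z1 k ^ 2) ∈ T := by
    have : P0 k ^ 2 / (s k * fb k * z1 k ^ 2) = (P0 k / v k) ^ 2 * (s k)⁻¹ * (fb k)⁻¹ *
        (z1 k / v k)⁻¹ ^ 2 := by field_simp
    rw [this]; exact mul_mem (mul_mem (mul_mem (pow_mem aP 2) i6) i4) (pow_mem i3 2)
  have g4 : fb k / F k ∈ T := by
    rw [div_eq_mul_inv]; exact mul_mem af i2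
  have g5 : z1 k ^ 9 / kapProd k w ∈ T := by
    have : z1 k ^ 9 / kapProd k w = (z1 k / v k) ^ 9 * (fb k)⁻¹ *
        ((lam k 1 / v k ^ 3) * (lam k w / v k ^ 3) * (lam k (w ^ 2) / v k ^ 3))⁻¹ := by
      have h1 := kapProd_ne k w
      have h2 := kapProd_eq k w hw
      have h3 : lam k 1 * lam k w * lam k (w ^ 2) ≠ 0 := by
        intro h; rw [h, mul_zero] at h2; exact h1 h2
      rw [h2]
      have h4 : (lam k 1 / v k ^ 3) * (lam k w / v k ^ 3) * (lam k (w ^ 2) / v k ^ 3) =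
        (lam k 1 * lam k w * lam k (w ^ 2)) / v k ^ 9 := by field_simp
      rw [h4]
      generalize lam k 1 * lam k w * lam k (w ^ 2) = l at h3
      field_simp
    rw [this]; exact mul_mem (mul_mem (pow_mem az 9) i4) i5
  refine sup_le (sup_le (Algebra.adjoin_le ?_) (Algebra.adjoin_le ?_)) hx
  · intro x hx
    simp only [gens, Set.mem_insert_iff, Set.mem_singleton_iff] at hx
    rcases hx with rfl | rfl | rfl | rfl
    · exact g1
    · exact g2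
    · exact g3
    · exact g4
  · intro x hx
    rw [Set.mem_singleton_iff] at hx
    rw [hx]
    exact g5

/-! ### the quotient representation at the origin of `B` -/

/-- `E = F/f̄` as polynomial -/
noncomputable def Ep : MvPolynomial (Fin 3) k := 1 - X 1 * X 2 ^ 2 * (X 0 ^ 3 - X 1 ^ 3)

/-- numerator of `κ_ω / z₁³` -/
noncomputable def Kp (ω : k) : MvPolynomial (Fin 3) k :=
  Ep k + (X 2 * (X 0 + X 1 ^ 2) + C ω * (-(X 2 * (X 1 + X 0 ^ 2)))) *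
      (-(X 1 ^ 2 * X 2 - X 2 ^ 4 * (X 0 ^ 3 - X 1 ^ 3) ^ 2 * (X 1 + X 0 ^ 2)))
     + (X 2 * (X 0 + X 1 ^ 2) + C ω * (-(X 2 * (X 1 + X 0 ^ 2)))) ^ 2 *
      (-(X 2 * (X 1 + X 0 ^ 2))) * Ep k

lemma aeval_Ep : aeval (tB k) (Ep k) =
    1 - B2 k * B3 k ^ 2 * (B1 k ^ 3 - B2 k ^ 3) := by
  simp [Ep, tB, B1, B2, B3]

lemma aeval_Kp (ω : k) : aeval (tB k) (Kp k ω) =
    (1 - B2 k * B3 k ^ 2 * (B1 k ^ 3 - B2 k ^ 3)) +
    (B3 k * (B1 k + B2 k ^ 2) + algebraMap k (KK k) ω * (-(B3 k * (B2 k + B1 k ^ 2)))) *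
        (-(B2 k ^ 2 * B3 k - B3 k ^ 4 * (B1 k ^ 3 - B2 k ^ 3) ^ 2 * (B2 k + B1 k ^ 2)))
       + (B3 k * (B1 k + B2 k ^ 2) + algebraMap k (KK k) ω * (-(B3 k * (B2 k + B1 k ^ 2)))) ^ 2 *
        (-(B3 k * (B2 k + B1 k ^ 2))) * (1 - B2 k * B3 k ^ 2 * (B1 k ^ 3 - B2 k ^ 3)) := by
  simp [Kp, Ep, tB, B1, B2, B3]

lemma kap_isQuot (ω : k) : kap k ω / z1 k ^ 3 * aeval (tB k) (Ep k) = aeval (tB k) (Kp k ω) := by
  rw [aeval_Ep, aeval_Kp]
  have h1 : kap k ω / z1 k ^ 3 = _ := (datB k).kap_eq' (algebraMap k (KK k) ω)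
  rw [h1]
  have h2 := (datB k).eE
  generalize algebraMap k (KK k) ω = w
  linear_combination ((B3 k * (B1 k + B2 k ^ 2) + w * (-(B3 k * (B2 k + B1 k ^ 2)))) *
    (-(B2 k ^ 2 * B3 k - B3 k ^ 4 * (B1 k ^ 3 - B2 k ^ 3) ^ 2 * (B2 k + B1 k ^ 2)))) * h2

/-- `κ₁ κ_w κ_{w²} / z₁⁹` is a unit at the origin of the chart `B`. -/
theorem kapProd_quot (w : k) (_hw : w ^ 2 + w + 1 = 0) :
    ∃ P G, IsQuot k (tB k) (kapProd k w / z1 k ^ 9) P G ∧ constantCoeff P ≠ 0 ∧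
      constantCoeff G ≠ 0 := by
  refine ⟨Kp k 1 * Kp k w * Kp k (w ^ 2), Ep k ^ 3, ?_, ?_, ?_⟩
  · unfold IsQuot
    rw [map_mul, map_mul, ← kap_isQuot, ← kap_isQuot, ← kap_isQuot, kapProd_div, map_pow]
    ring
  · simp [Kp, Ep]
  · simp [Ep]

end Special

end Helper50.D71
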