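import Pool.Agent.Helper50.D71.NZ

/-!
# Block R-smooth, general part
-/

open MvPolynomial

universe u

namespace Helper50.D71

section

variable {k : Type u} [Field k]

/-- a triple generating the field is algebraically independent -/
lemma algInd_of_top {t : Fin 3 → KK k} (h : IntermediateField.adjoin k (Set.range t) = ⊤) :
    AlgebraicIndependent k t := by
  have hfr : IsFractionRing (Algebra.adjoin k (Set.range t)) (KK k) := by
    apply IsFractionRing.of_field
    intro z
    have hz : z ∈ IntermediateField.adjoin k (Set.range t) := by rw [h]; trivial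
    obtain ⟨x, hx, y, hy, e⟩ := IntermediateField.mem_adjoin_iff_div.mp hz
    exact ⟨⟨x, hx⟩, ⟨y, hy⟩, e⟩
  have halg : Algebra.IsAlgebraic (Algebra.adjoin k (Set.range t)) (KK k) :=
    IsLocalization.isAlgebraic _ (nonZeroDivisors (Algebra.adjoin k (Set.range t)))
  have h1 : Algebra.trdeg k (MvPolynomial (Fin 3) k) ≤ Algebra.trdeg k (KK k) :=
    trdeg_le_of_injective (IsScalarTower.toAlgHom k (MvPolynomial (Fin 3) k) (KK k))
      (IsFractionRing.injective (MvPolynomial (Fin 3) k) (KK k))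
  have h2 := MvPolynomial.trdeg_of_isDomain (ι := Fin 3) (S := k)
  rw [h2] at h1
  exact (Algebra.IsAlgebraic.isTranscendenceBasis_of_lift_le_trdeg_of_finite k t
    (by simpa using h1)).1

end

section

variable {k : Type u} [Field k] {K : Type u} [Field K] [Algebra k K]

/-- `k[t₀,t₁,t₂][1/G(t)]` is smooth. -/
lemma smooth_loc {t : Fin 3 → K} (ht : AlgebraicIndependent k t) (G : MvPolynomial (Fin 3) k)
    (hG : G ≠ 0) (A : Subalgebra k K)
    (hA : A = Algebra.adjoin k (Set.range t) ⊔ Algebra.adjoin k {(aeval t G)⁻¹}) :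
    Algebra.Smooth k A := by
  have hG0 : aeval t G ≠ 0 := by
    intro h0
    apply hG
    exact ht (by rw [h0, map_zero])
  have hr : (aeval t : MvPolynomial (Fin 3) k →ₐ[k] K).range = Algebra.adjoin k (Set.range t) :=
    (Algebra.adjoin_range_eq_range_aeval k t).symm
  have hle : Algebra.adjoin k (Set.range t) ≤ A := by rw [hA]; exact le_sup_left
  have hmem : ∀ p : MvPolynomial (Fin 3) k, aeval t p ∈ A := by
    intro p
    apply hle
    rw [← hr]
    exact ⟨p, rfl⟩
  have hinv : (aeval t G)⁻¹ ∈ A := by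
    rw [hA]
    exact mem_adjoin_inv _
  set φ : MvPolynomial (Fin 3) k →ₐ[k] A := (aeval t).codRestrict A hmem with hφ
  let _ : Algebra (MvPolynomial (Fin 3) k) A := φ.toRingHom.toAlgebra
  have : IsScalarTower k (MvPolynomial (Fin 3) k) A :=
    IsScalarTower.of_algebraMap_eq' φ.comp_algebraMap.symm
  have hmap : ∀ p : MvPolynomial (Fin 3) k, ((algebraMap (MvPolynomial (Fin 3) k) A p : A) : K) =
      aeval t p := fun p => rfl
  have : IsLocalization.Away G A := by
    apply IsLocalization.Away.mk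
    · rw [isUnit_iff_exists_inv]
      refine ⟨⟨(aeval t G)⁻¹, hinv⟩, ?_⟩
      apply Subtype.ext
      change aeval t G * (aeval t G)⁻¹ = 1
      exact mul_inv_cancel₀ hG0
    · rintro ⟨x, hx⟩
      have hx' : x ∈ Algebra.adjoin k (Set.range t) ⊔ Algebra.adjoin k {(aeval t G)⁻¹} := by
        rw [← hA]; exact hx
      obtain ⟨n, hn⟩ := exists_mul_pow_mem (B := Algebra.adjoin k (Set.range t)) (f := aeval t G)
        (by rw [← hr]; exact ⟨G, rfl⟩) hG0 hx'
      rw [← hr] at hn
      obtain ⟨p, hp⟩ := hn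
      refine ⟨n, p, ?_⟩
      apply Subtype.ext
      change x * (aeval t G) ^ n = aeval t p
      exact hp.symm
    · intro a b hab
      refine ⟨0, ?_⟩
      have : aeval t a = aeval t b := congrArg Subtype.val hab
      rw [ht this]
  have : Algebra.Smooth (MvPolynomial (Fin 3) k) A := Algebra.Smooth.of_isLocalization_Away G
  have : Algebra.Smooth k (MvPolynomial (Fin 3) k) := {}
  exact Algebra.Smooth.comp k (MvPolynomial (Fin 3) k) A

/-- the relation `x₁x₂ = x₀³ - 1` -/
noncomputable def rel4 (k : Type u) [Field k] : MvPolynomial (Fin 4) k :=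
  X 1 * X 2 - X 0 ^ 3 + 1

lemma cancel_X1 {Q : MvPolynomial (Fin 4) k} (h : X 1 * Q ∈ Ideal.span {rel4 k}) :
    Q ∈ Ideal.span {rel4 k} := by
  rw [Ideal.mem_span_singleton] at h ⊢
  obtain ⟨H, hH⟩ := h
  have hp : Prime (X 1 : MvPolynomial (Fin 4) k) := X_prime
  have h1 : (X 1 : MvPolynomial (Fin 4) k) ∣ rel4 k * H := ⟨Q, hH.symm⟩
  rcases hp.dvd_or_dvd h1 with h2 | h2
  · exfalso
    obtain ⟨R, hR⟩ := h2
    have := congrArg (aeval (![0, 0, 0, 0] : Fin 4 → k)) hR
    simp [rel4] at this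
  · obtain ⟨H', rfl⟩ := h2
    refine ⟨H', ?_⟩
    have : (X 1 : MvPolynomial (Fin 4) k) * Q = X 1 * (rel4 k * H') := by rw [hH]; ring
    exact mul_left_cancel₀ hp.ne_zero this

/-- elimination of `x₂` -/
lemma elim_X2 (Q : MvPolynomial (Fin 4) k) : ∃ (n : ℕ) (R : MvPolynomial (Fin 3) k),
    X 1 ^ n * Q - rename ![0, 1, 3] R ∈ Ideal.span {rel4 k} := by
  induction Q using MvPolynomial.induction_on with
  | C a => exact ⟨0, C a, by simp⟩
  | add p q hp hq =>
    obtain ⟨n, R, h1⟩ := hp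
    obtain ⟨m, S, h2⟩ := hq
    refine ⟨n + m, X 1 ^ m * R + X 1 ^ n * S, ?_⟩
    have : X 1 ^ (n + m) * (p + q) - rename ![0, 1, 3] (X 1 ^ m * R + X 1 ^ n * S) =
        X 1 ^ m * (X 1 ^ n * p - rename ![0, 1, 3] R) +
          X 1 ^ n * (X 1 ^ m * q - rename ![0, 1, 3] S) := by
      simp only [map_add, map_mul, map_pow, rename_X]
      simp only [Matrix.cons_val_one, Matrix.cons_val_zero]
      ring
    rw [this]
    exact add_mem (Ideal.mul_mem_left _ _ h1) (Ideal.mul_mem_left _ _ h2)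
  | mul_X p i hp =>
    obtain ⟨n, R, h1⟩ := hp
    fin_cases i
    · refine ⟨n, R * X 0, ?_⟩
      have : X 1 ^ n * (p * X 0) - rename ![0, 1, 3] (R * X 0) =
        X 0 * (X 1 ^ n * p - rename ![0, 1, 3] R) := by
        simp only [map_mul, rename_X]
        simp only [Matrix.cons_val_zero]
        ring
      exact this ▸ Ideal.mul_mem_left _ _ h1
    · refine ⟨n, R * X 1, ?_⟩
      have : X 1 ^ n * (p * X 1) - rename ![0, 1, 3] (R * X 1) =
        X 1 * (X 1 ^ n * p - rename ![0, 1, 3] R) := by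
        simp only [map_mul, rename_X]
        simp only [Matrix.cons_val_one, Matrix.cons_val_zero]
        ring
      exact this ▸ Ideal.mul_mem_left _ _ h1
    · refine ⟨n + 1, R * (X 0 ^ 3 - 1), ?_⟩
      have : X 1 ^ (n + 1) * (p * X 2) - rename ![0, 1, 3] (R * (X 0 ^ 3 - 1)) =
        (X 1 ^ n * p) * rel4 k + (X 0 ^ 3 - 1) * (X 1 ^ n * p - rename ![0, 1, 3] R) := by
        simp only [map_mul, rename_X, map_sub, map_pow, map_one]
        simp only [Matrix.cons_val_zero]
        unfold rel4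
        ring
      exact this ▸ add_mem (Ideal.mul_mem_left _ _ (Ideal.subset_span rfl))
        (Ideal.mul_mem_left _ _ h1)
    · refine ⟨n, R * X 2, ?_⟩
      have : X 1 ^ n * (p * X 3) - rename ![0, 1, 3] (R * X 2) =
        X 3 * (X 1 ^ n * p - rename ![0, 1, 3] R) := by
        simp only [map_mul, rename_X]
        have e : (![0, 1, 3] : Fin 3 → Fin 4) 2 = 3 := rfl
        rw [e]
        ring
      exact this ▸ Ideal.mul_mem_left _ _ h1

/-- the kernel -/
lemma ker_le (a : Fin 4 → K) (hrel : a 1 * a 2 = a 0 ^ 3 - 1)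
    (ht : AlgebraicIndependent k (fun i => a (![0, 1, 3] i))) (Q : MvPolynomial (Fin 4) k)
    (hQ : aeval a Q = 0) : Q ∈ Ideal.span {rel4 k} := by
  have h0 : aeval a (rel4 k) = 0 := by
    simp only [rel4, map_add, map_sub, map_mul, map_pow, aeval_X, map_one, hrel]
    ring
  obtain ⟨n, R, hR⟩ := elim_X2 Q
  have h1 : aeval a (X 1 ^ n * Q - rename ![0, 1, 3] R) = 0 := by
    obtain ⟨S, hS⟩ := Ideal.mem_span_singleton.mp hR
    rw [hS, map_mul, h0, zero_mul]
  have h2 : aeval (fun i => a ((![0, 1, 3] : Fin 3 → Fin 4) i)) R = 0 := by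
    rw [map_sub, map_mul, hQ, mul_zero, zero_sub, neg_eq_zero, aeval_rename] at h1
    exact h1
  have h3 : R = 0 := ht (by rw [h2, map_zero])
  rw [h3, map_zero, sub_zero] at hR
  clear h1 h2 h3
  induction n with
  | zero => simpa using hR
  | succ n ih =>
    apply ih
    apply cancel_X1
    rw [pow_succ'] at hR
    rwa [mul_assoc] at hR

/-- `k[a₀,a₁,a₂,a₃]` with the only relation `a₁a₂ = a₀³ - 1` is smooth. -/
lemma smooth_rel (h3 : (3 : k) ≠ 0) (a : Fin 4 → K) (hrel : a 1 * a 2 = a 0 ^ 3 - 1)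
    (ht : AlgebraicIndependent k (fun i => a (![0, 1, 3] i))) (A : Subalgebra k K)
    (hA : A = Algebra.adjoin k (Set.range a)) : Algebra.Smooth k A := by
  have hr : (aeval a : MvPolynomial (Fin 4) k →ₐ[k] K).range = Algebra.adjoin k (Set.range a) :=
    (Algebra.adjoin_range_eq_range_aeval k a).symm
  have hmem : ∀ p : MvPolynomial (Fin 4) k, aeval a p ∈ A := by
    intro p
    rw [hA, ← hr]
    exact ⟨p, rfl⟩
  set φ : MvPolynomial (Fin 4) k →ₐ[k] A := (aeval a).codRestrict A hmem with hφ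
  have hsurj : Function.Surjective φ := by
    rintro ⟨x, hx⟩
    have hx' := hx
    rw [hA, ← hr] at hx'
    obtain ⟨p, hp⟩ := hx'
    exact ⟨p, Subtype.ext hp⟩
  have hker : ∀ Q, φ Q = 0 → Q ∈ Ideal.span {rel4 k} := by
    intro Q hQ
    exact ker_le a hrel ht Q (congrArg Subtype.val hQ)
  have hrel0 : φ (rel4 k) = 0 := by
    apply Subtype.ext
    change aeval a (rel4 k) = 0
    simp only [rel4, map_add, map_sub, map_mul, map_pow, aeval_X, map_one, hrel]
    ring
  have hfin : Algebra.FinitePresentation k A := by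
    rw [← Algebra.FinitePresentation.of_finiteType]
    exact Algebra.FiniteType.of_surjective φ hsurj
  refine ⟨?_, hfin⟩
  apply Algebra.FormallySmooth.of_comp_surjective
  intro B _ _ I hI f
  choose b hb using fun i : Fin 4 => Ideal.Quotient.mk_surjective (f (φ (X i)))
  set ε : B := b 1 * b 2 - b 0 ^ 3 + 1 with hε
  have hf : (aeval (fun i => f (φ (X i))) : MvPolynomial (Fin 4) k →ₐ[k] B ⧸ I) = f.comp φ := by
    apply MvPolynomial.algHom_ext
    intro i
    simp
  have hεI : ε ∈ I := by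
    rw [← Ideal.Quotient.eq_zero_iff_mem]
    have h4 : aeval (fun i => f (φ (X i))) (rel4 k) = 0 := by
      rw [hf, AlgHom.comp_apply, hrel0, map_zero]
    rw [← h4, hε]
    simp only [rel4, map_add, map_sub, map_mul, map_pow, map_one, aeval_X, hb]
  have hsq : ∀ x ∈ I, ∀ y ∈ I, x * y = 0 := by
    intro x hx y hy
    have : x * y ∈ I ^ 2 := by rw [pow_two]; exact Ideal.mul_mem_mul hx hy
    rw [hI] at this
    simpa using this
  set c : B := algebraMap k B (3⁻¹) with hc
  have hc3 : 3 * c = 1 := by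
    have h33 : (3 : B) = algebraMap k B 3 := (map_ofNat (algebraMap k B) 3).symm
    rw [hc, h33, ← map_mul, mul_inv_cancel₀ h3, map_one]
  set b' : Fin 4 → B := ![b 0 + c * b 0 * ε, b 1, b 2 + b 2 * ε, b 3] with hb'
  have hrel' : aeval b' (rel4 k) = 0 := by
    simp only [rel4, map_add, map_sub, map_mul, map_pow, map_one, aeval_X, hb']
    have e0 : (![b 0 + c * b 0 * ε, b 1, b 2 + b 2 * ε, b 3] : Fin 4 → B) 0 =
      b 0 + c * b 0 * ε := rfl
    have e1 : (![b 0 + c * b 0 * ε, b 1, b 2 + b 2 * ε, b 3] : Fin 4 → B) 1 = b 1 := rfl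
    have e2 : (![b 0 + c * b 0 * ε, b 1, b 2 + b 2 * ε, b 3] : Fin 4 → B) 2 =
      b 2 + b 2 * ε := rfl
    rw [e0, e1, e2]
    have hεε : ε * ε = 0 := hsq _ hεI _ hεI
    have e3 : b 1 * b 2 = ε + b 0 ^ 3 - 1 := by rw [hε]; ring
    linear_combination (1 + ε) * e3 - b 0 ^ 3 * ε * hc3 +
      (1 - 3 * c ^ 2 * b 0 ^ 3 - c ^ 3 * b 0 ^ 3 * ε) * hεε
  have hker' : ∀ Q ∈ RingHom.ker φ, aeval b' Q = 0 := by
    intro Q hQ
    obtain ⟨S, hS⟩ := Ideal.mem_span_singleton.mp (hker Q hQ)
    rw [hS, map_mul, hrel', zero_mul]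
  set ψ : A ≃ₐ[k] (MvPolynomial (Fin 4) k ⧸ RingHom.ker φ) :=
    (Ideal.quotientKerAlgEquivOfSurjective hsurj).symm with hψ
  set g : A →ₐ[k] B := (Ideal.Quotient.liftₐ (RingHom.ker φ) (aeval b') hker').comp
    (ψ : A →ₐ[k] (MvPolynomial (Fin 4) k ⧸ RingHom.ker φ)) with hg
  have hgφ : ∀ Q, g (φ Q) = aeval b' Q := by
    intro Q
    have h5 : ψ (φ Q) = Ideal.Quotient.mk (RingHom.ker φ) Q := by
      rw [hψ, AlgEquiv.symm_apply_eq]
      rfl
    rw [hg, AlgHom.comp_apply]
    have h6 : (ψ : A →ₐ[k] (MvPolynomial (Fin 4) k ⧸ RingHom.ker φ)) (φ Q) = ψ (φ Q) := rfl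
    rw [h6, h5]
    rfl
  refine ⟨g, ?_⟩
  apply AlgHom.ext
  intro x
  obtain ⟨Q, rfl⟩ := hsurj x
  simp only [AlgHom.comp_apply]
  rw [hgφ]
  have h7 : ((Ideal.Quotient.mkₐ k I).comp (aeval b') : MvPolynomial (Fin 4) k →ₐ[k] B ⧸ I) =
      f.comp φ := by
    rw [← hf]
    apply MvPolynomial.algHom_ext
    have hε0 : Ideal.Quotient.mk I ε = 0 := Ideal.Quotient.eq_zero_iff_mem.mpr hεI
    intro i
    simp only [AlgHom.comp_apply, aeval_X, Ideal.Quotient.mkₐ_eq_mk]
    rw [← hb i]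
    fin_cases i
    · change Ideal.Quotient.mk I (b 0 + c * b 0 * ε) = Ideal.Quotient.mk I (b 0)
      rw [map_add, map_mul, hε0, mul_zero, add_zero]
    · rfl
    · change Ideal.Quotient.mk I (b 2 + b 2 * ε) = Ideal.Quotient.mk I (b 2)
      rw [map_add, map_mul, hε0, mul_zero, add_zero]
    · rfl
  exact congrArg (fun g => g Q) h7

end

end Helper50.D71
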